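import Mathlib
import Pool.Agent.W651.SubA

set_option autoImplicit false

namespace Pool.Agent.Results.MP_a8ba19_gt.Factors

open Topology

universe u

/-- The space `X` is rectifiable: there are a point `e` and a homeomorphism `φ` of `X × X` that
preserves the first coordinate and sends `(x, x)` to `(x, e)`. -/
def Rectifiable (X : Type u) [TopologicalSpace X] : Prop :=
  ∃ (φ : (X × X) ≃ₜ (X × X)) (e : X), (∀ p : X × X, (φ p).1 = p.1) ∧ ∀ x : X, φ (x, x) = (x, e)

/-- The space `X` gives negative answers to both questions: it is regular, rectifiable and of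
countable pseudocharacter, but it is not Tychonoff and admits no coarser metrizable topology. -/
def Answers (X : Type u) [τ : TopologicalSpace X] : Prop :=
  T3Space X ∧ Rectifiable X ∧ (∀ x : X, IsGδ ({x} : Set X)) ∧ ¬ T35Space X ∧
    ∀ t : TopologicalSpace X, τ ≤ t → ¬ @TopologicalSpace.MetrizableSpace X t

lemma Rectifiable.prod {X Y : Type*} [TopologicalSpace X] [TopologicalSpace Y]
    (hX : Rectifiable X) (hY : Rectifiable Y) : Rectifiable (X × Y) := by
  obtain ⟨φ, e, h1, h2⟩ := hX
  obtain ⟨ψ, d, h3, h4⟩ := hY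
  let σ : (X × Y) × (X × Y) ≃ₜ (X × X) × (Y × Y) :=
    { toFun := fun p => ((p.1.1, p.2.1), (p.1.2, p.2.2))
      invFun := fun p => ((p.1.1, p.2.1), (p.1.2, p.2.2))
      left_inv := fun _ => rfl
      right_inv := fun _ => rfl
      continuous_toFun := by fun_prop
      continuous_invFun := by fun_prop }
  refine ⟨(σ.trans (φ.prodCongr ψ)).trans σ.symm, (e, d), fun p => ?_, fun x => ?_⟩
  · change ((φ (p.1.1, p.2.1)).1, (ψ (p.1.2, p.2.2)).1) = p.1
    rw [h1, h3]
  · change (((φ (x.1, x.1)).1, (ψ (x.2, x.2)).1), ((φ (x.1, x.1)).2, (ψ (x.2, x.2)).2)) = (x, (e, d))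
    rw [h2, h4]

lemma isGδ_prod {X Y : Type*} [TopologicalSpace X] [TopologicalSpace Y]
    (hX : ∀ x : X, IsGδ ({x} : Set X)) (hY : ∀ y : Y, IsGδ ({y} : Set Y)) (p : X × Y) :
    IsGδ ({p} : Set (X × Y)) := by
  have h1 : ({p} : Set (X × Y)) = Prod.fst ⁻¹' {p.1} ∩ Prod.snd ⁻¹' {p.2} := by
    ext q
    rw [Set.mem_singleton_iff, Set.mem_inter_iff, Set.mem_preimage, Set.mem_preimage,
      Set.mem_singleton_iff, Set.mem_singleton_iff, Prod.ext_iff]
  rw [h1]
  exact ((hX p.1).preimage continuous_fst).inter ((hY p.2).preimage continuous_snd)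

/-- Products with other regular rectifiable spaces of countable pseudocharacter. -/
lemma Answers.prod {X Y : Type*} [τX : TopologicalSpace X] [TopologicalSpace Y] (hX : Answers X)
    (h3 : T3Space Y) (hY : Rectifiable Y) (hG : ∀ y : Y, IsGδ ({y} : Set Y)) :
    Answers (X × Y) := by
  obtain ⟨a1, a2, a3, a4, a5⟩ := hX
  obtain ⟨y⟩ : Nonempty Y := by
    obtain ⟨-, e, -⟩ := hY
    exact ⟨e⟩
  have h2 : Continuous (fun x : X => (x, y)) := by fun_prop
  rw [continuous_iff_le_induced] at h2
  refine ⟨inferInstance, a2.prod hY, isGδ_prod a3 hG, fun h => a4 ?_, fun t ht hm => ?_⟩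
  · exact (isEmbedding_prodMkLeft (X := X) y).t35Space
  · refine a5 (t.induced fun x => (x, y)) (h2.trans (induced_mono ht)) ?_
    letI := t
    letI : TopologicalSpace X := t.induced fun x => (x, y)
    have h3 : IsEmbedding (fun x : X => (x, y)) :=
      ⟨⟨rfl⟩, fun a b h => congrArg Prod.fst h⟩
    exact h3.metrizableSpace

/-- There is a regular rectifiable space `A` of countable pseudocharacter such that `A`, and the
product of `A` with any regular rectifiable space of countable pseudocharacter, is not Tychonoff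
and admits no coarser metrizable topology. -/
theorem result :
    ∃ (A : Type) (_ : TopologicalSpace A), Answers A ∧
      ∀ (Y : Type u) [TopologicalSpace Y], T3Space Y → Rectifiable Y →
        (∀ y : Y, IsGδ ({y} : Set Y)) → Answers (A × Y) := by
  have hA : Answers Pool.Agent.W651.Sub.A := by
    refine ⟨Pool.Agent.W651.Sub.t3A,
      ⟨Pool.Agent.W651.Sub.phi, Pool.Agent.W651.Sub.o, fun p => ?_, fun x => ?_⟩,
      Pool.Agent.W651.Sub.gdelta, Pool.Agent.W651.Sub.not_T35,
      Pool.Agent.W651.Sub.not_submetrizable⟩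
    · rw [Pool.Agent.W651.Sub.phi_apply]
    · rw [Pool.Agent.W651.Sub.phi_apply]
      show (x, Pool.Agent.W651.Sub.D x x) = (x, Pool.Agent.W651.Sub.o)
      rw [Pool.Agent.W651.Sub.D_self]
  exact ⟨Pool.Agent.W651.Sub.A, inferInstance, hA, fun Y _ h1 h2 h3 => hA.prod h1 h2 h3⟩

end Pool.Agent.Results.MP_a8ba19_gt.Factors
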